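import Pool.Agent.E8helper87.RG.Grow
import Pool.Agent.E8helper65.RG.CORE

set_option autoImplicit false

/-! # The rank of matrices with the zero pattern of a graph of large girth -/

namespace Pool.Agent.U286.RK

open SimpleGraph Pool.Agent.E8helper87.RG

/-- a matrix with a nonsingular diagonal submatrix -/
theorem card_le_rank {m n ι : Type} [Fintype m] [Fintype n] [Fintype ι] {K : Type}
    [Field K] (M : Matrix m n K) (r : ι → m) (c : ι → n) (h : ∀ i j, M (r i) (c j) ≠ 0 ↔ i = j) :
    Fintype.card ι ≤ M.rank := by
  classical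
  have h1 : M.submatrix r c = Matrix.diagonal fun i => M (r i) (c i) := by
    ext i j
    rw [Matrix.submatrix_apply, Matrix.diagonal_apply]
    by_cases hij : i = j
    · rw [if_pos hij, hij]
    · rw [if_neg hij]
      by_contra hcon
      exact hij ((h i j).1 hcon)
  have h2 : (M.submatrix r c).rank = Fintype.card ι := by
    rw [h1, Matrix.rank_diagonal]
    have h3 : ∀ i, M (r i) (c i) ≠ 0 := fun i => (h i i).2 rfl
    rw [Fintype.card_subtype]
    rw [Finset.filter_true_of_mem (fun i _ => h3 i), Finset.card_univ]
  rw [← h2]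
  exact Matrix.rank_submatrix_le M r c

/-- the number of the end points of the paths of length `j` (from the proof of `t_GROW`) -/
theorem growth {n : ℕ} {G : SimpleGraph (Fin n)} {q ρ : ℕ} {S : Set (Fin n)}
    (hdeg : ∀ u ∈ S, q + 1 ≤ {w | w ∈ S ∧ G.Adj u w}.ncard)
    (hc : ∀ (v : Fin n) (w : G.Walk v v), w.IsCycle → 2 * ρ < w.length) {v0 : Fin n}
    (hv0 : v0 ∈ S) :
    ∀ j ≤ ρ, q ^ j ≤ (L G S v0 j).ncard := by
  classical
  have key : ∀ j ≤ ρ, q ^ j ≤ (L G S v0 j).toFinset.card := by
    intro j
    induction j with
    | zero =>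
      intro _
      rw [pow_zero]
      apply Finset.card_pos.mpr
      refine ⟨v0, ?_⟩
      rw [Set.mem_toFinset]
      exact ⟨Walk.nil, Walk.IsPath.nil, rfl, by simpa using hv0⟩
    | succ j ih =>
      intro hj
      have ih' := ih (by omega)
      have hch : ∀ x : Fin n, ∃ N : Finset (Fin n), x ∈ L G S v0 j →
          (q ≤ N.card ∧ ∀ w ∈ N, ∃ (p : G.Walk v0 x) (h : G.Adj x w), p.IsPath ∧ p.length = j ∧
            (∀ y ∈ p.support, y ∈ S) ∧ w ∉ p.support ∧ w ∈ S) := by
        intro x
        by_cases hx : x ∈ L G S v0 j
        · obtain ⟨p, hp, hpl, hpS⟩ := hx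
          have hxS : x ∈ S := hpS x p.end_mem_support
          refine ⟨({w | w ∈ S ∧ G.Adj x w} : Set (Fin n)).toFinset.erase (p.getVert (p.length - 1)),
            fun _ => ⟨?_, ?_⟩⟩
          · have h1 := hdeg x hxS
            rw [Set.ncard_eq_toFinset_card'] at h1
            have h2 := Finset.pred_card_le_card_erase
              (s := ({w | w ∈ S ∧ G.Adj x w} : Set (Fin n)).toFinset)
              (a := p.getVert (p.length - 1))
            omega
          · intro w hw
            rw [Finset.mem_erase, Set.mem_toFinset] at hw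
            refine ⟨p, hw.2.2, hp, hpl, hpS, ?_, hw.2.1⟩
            intro hws
            exact hw.1 (nb_unique hc p hp (by omega) w hws hw.2.2)
        · exact ⟨∅, fun h => absurd h hx⟩
      choose N hN using hch
      have hdisj : ((L G S v0 j).toFinset : Set (Fin n)).PairwiseDisjoint N := by
        intro x hx y hy hxy
        rw [Function.onFun, Finset.disjoint_left]
        intro w hwx hwy
        rw [Finset.mem_coe, Set.mem_toFinset] at hx hy
        obtain ⟨p, h, hp, hpl, hpS, hwp, hwS⟩ := (hN x hx).2 w hwx
        obtain ⟨p', h', hp', hpl', hpS', hwp', hwS'⟩ := (hN y hy).2 w hwy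
        have h3 : p.concat h = p'.concat h' := by
          apply path_unique hc
          · exact hp.concat hwp h
          · exact hp'.concat hwp' h'
          · rw [Walk.length_concat]; omega
          · rw [Walk.length_concat]; omega
        have h4 := congrArg Walk.penultimate h3
        rw [Walk.penultimate_concat, Walk.penultimate_concat] at h4
        exact hxy h4
      have hsub : (L G S v0 j).toFinset.biUnion N ⊆ (L G S v0 (j + 1)).toFinset := by
        intro w hw
        rw [Finset.mem_biUnion] at hw
        obtain ⟨x, hx, hwx⟩ := hw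
        rw [Set.mem_toFinset] at hx
        obtain ⟨p, h, hp, hpl, hpS, hwp, hwS⟩ := (hN x hx).2 w hwx
        rw [Set.mem_toFinset]
        refine ⟨p.concat h, hp.concat hwp h, by rw [Walk.length_concat, hpl], ?_⟩
        intro y hy
        rw [Walk.support_concat] at hy
        simp only [List.mem_append, List.mem_singleton] at hy
        rcases hy with hy | hy
        · exact hpS y hy
        · rw [hy]; exact hwS
      calc q ^ (j + 1) = q ^ j * q := pow_succ _ _
        _ ≤ (L G S v0 j).toFinset.card * q := Nat.mul_le_mul_right _ ih'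
        _ = ∑ x ∈ (L G S v0 j).toFinset, q := by rw [Finset.sum_const, smul_eq_mul]
        _ ≤ ∑ x ∈ (L G S v0 j).toFinset, (N x).card := by
            apply Finset.sum_le_sum
            intro x hx
            rw [Set.mem_toFinset] at hx
            exact (hN x hx).1
        _ = ((L G S v0 j).toFinset.biUnion N).card := (Finset.card_biUnion hdisj).symm
        _ ≤ _ := Finset.card_le_card hsub
  intro j hj
  rw [Set.ncard_eq_toFinset_card']
  exact key j hj

/-- **the rank of a matrix with the pattern of a graph of girth `> 2 (k + 1)`** -/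
theorem rank_core {n : ℕ} {G : SimpleGraph (Fin n)} {K : Type} [Field K]
    (M : Matrix (Fin n) (Fin n) K) (hM : ∀ x y, x ≠ y → (M x y ≠ 0 ↔ G.Adj x y)) {q k : ℕ}
    (S : Set (Fin n)) (hS : S.Nonempty) (hq : 1 ≤ q)
    (hdeg : ∀ u ∈ S, q + 1 ≤ {w | w ∈ S ∧ G.Adj u w}.ncard)
    (hc : ∀ (v : Fin n) (w : G.Walk v v), w.IsCycle → 2 * (k + 1) < w.length) :
    q ^ k ≤ M.rank := by
  classical
  obtain ⟨v0, hv0⟩ := hS
  have hg := growth hdeg hc hv0 k (by omega)
  have hch : ∀ x : {x // x ∈ L G S v0 k}, ∃ (w : Fin n) (p : G.Walk v0 x) (_ : G.Adj x w),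
      p.IsPath ∧ p.length = k ∧ w ∉ p.support := by
    rintro ⟨x, hx⟩
    obtain ⟨p, hp, hpl, hpS⟩ := hx
    have hxS : x ∈ S := hpS x p.end_mem_support
    have h1 := hdeg x hxS
    rw [Set.ncard_eq_toFinset_card'] at h1
    have h2 := Finset.pred_card_le_card_erase
      (s := ({w | w ∈ S ∧ G.Adj x w} : Set (Fin n)).toFinset) (a := p.getVert (p.length - 1))
    have h3 : 0 < (({w | w ∈ S ∧ G.Adj x w} : Set (Fin n)).toFinset.erase
      (p.getVert (p.length - 1))).card := by omega
    obtain ⟨w, hw⟩ := Finset.card_pos.1 h3
    rw [Finset.mem_erase, Set.mem_toFinset] at hw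
    refine ⟨w, p, hw.2.2, hp, hpl, ?_⟩
    intro hws
    exact hw.1 (nb_unique hc p hp (by omega) w hws hw.2.2)
  choose w p hadj hp hpl hwp using hch
  have hrank := card_le_rank M (fun x : {x // x ∈ L G S v0 k} => (x : Fin n)) w (by
    intro x y
    have hyp : ((p y).concat (hadj y)).IsPath := (hp y).concat (hwp y) (hadj y)
    have hyl : ((p y).concat (hadj y)).length = k + 1 := by rw [Walk.length_concat, hpl]
    have hne : (x : Fin n) ≠ w y := by
      intro h
      have h5 : ∀ (z : Fin n) (p1 : G.Walk v0 z), p1.IsPath → p1.length = k → z ≠ w y := by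
        intro z p1 h6 h7 h8
        subst h8
        have := path_unique hc p1 _ h6 hyp (by omega) (by omega)
        have := congrArg Walk.length this
        omega
      exact h5 x (p x) (hp x) (hpl x) h
    rw [hM _ _ hne]
    constructor
    · intro hxy
      by_cases hw : w y ∈ (p x).support
      · exfalso
        have h6 := (hp x).takeUntil hw
        have h7 := (p x).length_takeUntil_le_length hw
        have h9 := hpl x
        have h8 := path_unique hc _ _ h6 hyp (by omega) (by omega)
        have := congrArg Walk.length h8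
        omega
      · have h6 : ((p x).concat hxy).IsPath := (hp x).concat hw hxy
        have h7 : ((p x).concat hxy).length = k + 1 := by rw [Walk.length_concat, hpl]
        have h8 := path_unique hc _ _ h6 hyp (by omega) (by omega)
        have h4 := congrArg Walk.penultimate h8
        rw [Walk.penultimate_concat, Walk.penultimate_concat] at h4
        exact Subtype.ext h4
    · rintro rfl
      exact hadj x)
  refine le_trans ?_ hrank
  rw [← Nat.card_eq_fintype_card]
  exact hg

end Pool.Agent.U286.RK
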