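import Mathlib

set_option autoImplicit false

/-! # Definitions: matrices given by functions of few symbols -/

namespace Pool.Agent.U286.RK

/-- The rows of the matrix `M` over `K` have names `a x`, strings of `m` symbols, and `M x y` is a sum
over `K` of (arbitrarily many) terms `f_j(x, y)`, each of which depends only on `y` and on at most `D`
symbols of the name of `x` (at places depending on `j`). -/
def FewSymbols {V W α K : Type} [Field K] {m : ℕ} (a : V → Fin m → α) (D : ℕ)
    (M : Matrix V W K) : Prop :=
  ∃ (J : ℕ) (f : Fin J → V → W → K), (∀ x y, M x y = ∑ j, f j x y) ∧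
    ∀ j, ∃ S : Finset (Fin m), S.card ≤ D ∧
      ∀ x x' y, (∀ i ∈ S, a x i = a x' i) → f j x y = f j x' y

end Pool.Agent.U286.RK
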