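import Pool.Agent.U286.RK.Core
import Pool.Agent.U286.RK.Def
import Pool.Agent.U286.DQ.Rel

set_option autoImplicit false

/-! # Large girth and rank: main theorems -/

namespace Pool.Agent.U286.RK

open SimpleGraph
open Pool.Agent.U286.DQ (low mem_low card_low)

/-- the rank of a sum of functions of few symbols -/
theorem rank_few {V W α K : Type} [Field K] [Fintype V] [Fintype W] [Fintype α] {m : ℕ}
    (a : V → Fin m → α) (D : ℕ) (M : Matrix V W K) (h : FewSymbols a D M) :
    M.rank ≤ (m * Fintype.card α + 1) ^ D := by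
  classical
  obtain ⟨J, f, hf, hS⟩ := h
  choose S hS1 hS2 using hS
  set ind : Finset (Fin m × α) → V → K := fun E x => if ∀ p ∈ E, a x p.1 = p.2 then 1 else 0
    with hind
  set B : Finset (V → K) := (low (Finset.univ : Finset (Fin m × α)) D).image ind with hB
  have hBc : B.card ≤ (m * Fintype.card α + 1) ^ D := by
    refine Finset.card_image_le.trans ((card_low _ _).trans ?_)
    rw [Finset.card_univ, Fintype.card_prod, Fintype.card_fin]
  have hcol : ∀ (j : Fin J) (y : W), (fun x => f j x y) ∈ Submodule.span K (B : Set (V → K)) := by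
    intro j y
    set E : V → Finset (Fin m × α) := fun x => (S j).image fun i => (i, a x i) with hE
    set rep : Finset (Fin m × α) → K := fun e => if h : ∃ x, E x = e then f j h.choose y else 0
      with hrep
    have hEmem : ∀ x, ind (E x) ∈ (B : Set (V → K)) := by
      intro x
      rw [Finset.mem_coe, hB]
      apply Finset.mem_image_of_mem
      rw [mem_low]
      exact ⟨Finset.subset_univ _, Finset.card_image_le.trans (hS1 j)⟩
    have hind' : ∀ x x', ind (E x') x = if E x = E x' then 1 else 0 := by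
      intro x x'
      rw [hind]
      simp only
      apply if_congr _ rfl rfl
      constructor
      · intro h
        rw [hE]
        simp only
        apply Finset.image_congr
        intro i hi
        have h1 := h (i, a x' i) (by
          rw [hE]
          exact Finset.mem_image_of_mem _ (Finset.mem_coe.1 hi))
        simp only at h1
        simp only [h1]
      · intro h p hp
        rw [← h, hE] at hp
        simp only at hp
        rw [Finset.mem_image] at hp
        obtain ⟨i, -, rfl⟩ := hp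
        rfl
    have hEeq : ∀ x' x, E x' = E x → ∀ i ∈ S j, a x' i = a x i := by
      intro x' x h1 i hi
      have h2 : (i, a x i) ∈ E x' := by
        rw [h1]
        exact Finset.mem_image_of_mem _ hi
      have h2' : (i, a x i) ∈ (S j).image fun i => (i, a x' i) := h2
      rw [Finset.mem_image] at h2'
      obtain ⟨i', -, h3⟩ := h2'
      rw [Prod.mk.injEq] at h3
      obtain ⟨rfl, h4⟩ := h3
      exact h4
    have hrep' : ∀ x, rep (E x) = f j x y := by
      intro x
      have h : ∃ x', E x' = E x := ⟨x, rfl⟩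
      rw [hrep]
      simp only
      rw [dif_pos h]
      exact hS2 j _ _ y (hEeq _ _ h.choose_spec)
    have heq : (fun x => f j x y) = ∑ e ∈ Finset.univ.image E, rep e • ind e := by
      funext x
      rw [Finset.sum_apply]
      simp only [Pi.smul_apply, smul_eq_mul]
      rw [Finset.sum_eq_single (E x)]
      · rw [hrep', hind', if_pos rfl, mul_one]
      · intro e he hne
        rw [Finset.mem_image] at he
        obtain ⟨x', -, rfl⟩ := he
        rw [hind', if_neg (fun h => hne h.symm), mul_zero]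
      · intro h
        exact absurd (Finset.mem_image_of_mem _ (Finset.mem_univ _)) h
    rw [heq]
    apply Submodule.sum_mem
    intro e he
    rw [Finset.mem_image] at he
    obtain ⟨x', -, rfl⟩ := he
    exact Submodule.smul_mem _ _ (Submodule.subset_span (hEmem x'))
  rw [Matrix.rank_eq_finrank_span_cols]
  refine le_trans ?_ ((finrank_span_finset_le_card (R := K) B).trans hBc)
  apply Submodule.finrank_mono
  rw [Submodule.span_le]
  rintro _ ⟨y, rfl⟩
  have h1 : M.col y = ∑ j, fun x => f j x y := by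
    funext x
    rw [Finset.sum_apply]
    exact hf x y
  rw [h1]
  exact Submodule.sum_mem _ fun j _ => hcol j y

theorem cycles_of_girth {n : ℕ} {G : SimpleGraph (Fin n)} {k : ℕ}
    (h : ((2 * k : ℕ) : ℕ∞) < G.egirth) (v : Fin n) (w : G.Walk v v) (hw : w.IsCycle) :
    2 * k < w.length := by
  have h1 : G.egirth ≤ w.length := by
    have h2 := (SimpleGraph.le_egirth (G := G) (n := G.egirth)).1 le_rfl
    exact h2 v w hw
  exact_mod_cast h.trans_le h1

/-- one matrix -/
theorem rank_one {n k d : ℕ} (G : SimpleGraph (Fin n)) (hk : 1 ≤ k) (hn : 0 < n) (hd : 1 ≤ d)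
    (hG : ((2 * k : ℕ) : ℕ∞) < G.egirth) {K : Type} [Field K] (M : Matrix (Fin n) (Fin n) K)
    (hM : ∀ x y, x ≠ y → (G.Adj x y ↔ M x y ≠ 0)) (hE : d * n ≤ G.edgeSet.ncard) :
    d ^ (k - 1) ≤ M.rank := by
  obtain ⟨S, hS, hdeg⟩ := Pool.Agent.E8helper65.RG.t_CORE n (d - 1) G hn (by
    rw [Nat.sub_add_cancel hd]
    exact hE)
  refine rank_core M (fun x y hxy => (hM x y hxy).symm) S hS hd (fun u hu => ?_)
    (fun v w hw => ?_)
  · have := hdeg u hu
    omega
  · have := cycles_of_girth hG v w hw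
    omega

theorem edgeSet_ncard_iSup {n L : ℕ} (G : SimpleGraph (Fin n)) (H : Fin L → SimpleGraph (Fin n))
    (h : ∀ x y, G.Adj x y → ∃ l, (H l).Adj x y) :
    G.edgeSet.ncard ≤ ∑ l, (H l).edgeSet.ncard := by
  classical
  have h1 : G.edgeSet ⊆ ⋃ l ∈ (Finset.univ : Finset (Fin L)), (H l).edgeSet := by
    intro e he
    induction e with
    | h x y =>
      rw [SimpleGraph.mem_edgeSet] at he
      obtain ⟨l, hl⟩ := h x y he
      simp only [Set.mem_iUnion]
      exact ⟨l, Finset.mem_univ _, hl⟩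
  refine (Set.ncard_le_ncard h1 (Set.toFinite _)).trans ?_
  exact Finset.set_ncard_biUnion_le _ _

/-- the union of the supports of several matrices -/
theorem rank_union {n k d L : ℕ} (G : SimpleGraph (Fin n)) (hk : 1 ≤ k) (hn : 0 < n) (hd : 1 ≤ d)
    (hL : 1 ≤ L) (hG : ((2 * k : ℕ) : ℕ∞) < G.egirth) {K : Fin L → Type} [∀ l, Field (K l)]
    (M : ∀ l, Matrix (Fin n) (Fin n) (K l)) (hs : ∀ l x y, M l x y ≠ 0 → M l y x ≠ 0)
    (hM : ∀ x y, x ≠ y → (G.Adj x y ↔ ∃ l, M l x y ≠ 0)) (hE : L * (d * n) ≤ G.edgeSet.ncard) :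
    ∃ l, d ^ (k - 1) ≤ (M l).rank := by
  classical
  set H : Fin L → SimpleGraph (Fin n) := fun l =>
    { Adj := fun x y => x ≠ y ∧ M l x y ≠ 0
      symm := ⟨fun x y h => ⟨h.1.symm, hs l x y h.2⟩⟩
      loopless := ⟨fun x h => h.1 rfl⟩ } with hH
  have hle : ∀ l, H l ≤ G := by
    intro l x y h
    exact (hM x y h.1).2 ⟨l, h.2⟩
  have h1 := edgeSet_ncard_iSup G H (fun x y h => by
    obtain ⟨l, hl⟩ := (hM x y h.ne).1 h
    exact ⟨l, h.ne, hl⟩)
  have h2 : ∃ l, d * n ≤ (H l).edgeSet.ncard := by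
    by_contra hcon
    push Not at hcon
    have : ∑ l, (H l).edgeSet.ncard < ∑ l : Fin L, d * n := by
      apply Finset.sum_lt_sum_of_nonempty
      · exact ⟨⟨0, hL⟩, Finset.mem_univ _⟩
      · exact fun l _ => hcon l
    rw [Finset.sum_const, Finset.card_univ, Fintype.card_fin, smul_eq_mul] at this
    omega
  obtain ⟨l, hl⟩ := h2
  refine ⟨l, rank_one (H l) hk hn hd ?_ (M l) (fun x y hxy => ?_) hl⟩
  · exact hG.trans_le (SimpleGraph.egirth_anti (hle l))
  · exact ⟨fun h => h.2, fun h => ⟨hxy, h⟩⟩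

/-- the asymptotic form -/
theorem rank_asy (k : ℕ) (hk : 2 ≤ k) (c : ℝ) (hc : 0 < c) : ∃ c' : ℝ, 0 < c' ∧ ∃ N : ℕ,
    ∀ n : ℕ, N ≤ n → ∀ G : SimpleGraph (Fin n), ((2 * k : ℕ) : ℕ∞) < G.egirth →
    c * (n : ℝ) ^ (1 + 1 / (k : ℝ)) ≤ G.edgeSet.ncard → ∀ (K : Type) [Field K]
    (M : Matrix (Fin n) (Fin n) K), (∀ x y, x ≠ y → (G.Adj x y ↔ M x y ≠ 0)) →
    c' * (n : ℝ) ^ (1 - 1 / (k : ℝ)) ≤ M.rank := by
  have hk0 : (0 : ℝ) < k := by positivity
  refine ⟨(c / 2) ^ (k - 1), by positivity, ⌈(2 / c) ^ (k : ℝ)⌉₊ + 1, fun n hn G hG hE K _ M hM => ?_⟩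
  have hn1 : 1 ≤ n := by omega
  have hn0 : (0 : ℝ) < n := by exact_mod_cast hn1
  set z : ℝ := (n : ℝ) ^ (1 / (k : ℝ)) with hz
  have hz0 : 0 < z := Real.rpow_pos_of_pos hn0 _
  have hnz : (n : ℝ) ^ (1 + 1 / (k : ℝ)) = z * n := by
    rw [Real.rpow_add hn0, Real.rpow_one, mul_comm]
  have hlarge : 2 / c ≤ z := by
    have h1 : (2 / c) ^ (k : ℝ) ≤ n := by
      refine (Nat.le_ceil _).trans ?_
      exact_mod_cast (Nat.le_succ _).trans hn
    have h2 := Real.rpow_le_rpow (by positivity) h1 (show (0 : ℝ) ≤ 1 / k by positivity)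
    rwa [← Real.rpow_mul (by positivity), mul_one_div_cancel hk0.ne', Real.rpow_one] at h2
  have hcz : 2 ≤ c * z := by
    rw [div_le_iff₀ hc] at hlarge
    linarith
  set d : ℕ := ⌊c * z⌋₊ with hd
  have hd1 : (d : ℝ) ≤ c * z := Nat.floor_le (by positivity)
  have hd2 : c * z < d + 1 := Nat.lt_floor_add_one _
  have hd3 : c / 2 * z ≤ d := by linarith
  have hd4 : 1 ≤ d := by
    rw [hd, Nat.one_le_floor_iff]
    linarith
  have hdE : d * n ≤ G.edgeSet.ncard := by
    have h1 : (d : ℝ) * n ≤ G.edgeSet.ncard := by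
      refine le_trans ?_ hE
      rw [hnz, ← mul_assoc]
      exact mul_le_mul_of_nonneg_right hd1 hn0.le
    exact_mod_cast h1
  have h := rank_one G (by omega) (by omega) hd4 hG M hM hdE
  have h2 : (d : ℝ) ^ (k - 1) ≤ M.rank := by exact_mod_cast h
  refine le_trans ?_ h2
  have h3 : (n : ℝ) ^ (1 - 1 / (k : ℝ)) = z ^ (k - 1) := by
    rw [hz, ← Real.rpow_natCast, ← Real.rpow_mul hn0.le]
    congr 1
    rw [Nat.cast_sub (by omega)]
    field_simp
    push_cast
    ring
  rw [h3, ← mul_pow]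
  exact pow_le_pow_left₀ (by positivity) hd3 _

end Pool.Agent.U286.RK
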